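import Mathlib
import Pool.Agent.H31.DegMono
import Pool.Agent.H31.DegMono3

set_option autoImplicit false
open Filter Topology Finset

namespace Pool.Agent.Results.MP_7de56e_co.Limit

/-- G has a degree-monotone path p 0, ..., p (m-1) of order m. -/
def HasPath {V : Type} (G : SimpleGraph V) (m : ℕ) : Prop :=
  ∃ p : ℕ → V, Set.InjOn p (Set.Iio m) ∧ ∀ i, i + 1 < m → G.Adj (p i) (p (i + 1)) ∧
    (G.neighborSet (p i)).ncard ≤ (G.neighborSet (p (i + 1))).ncard

/-- The spanning graph of the edges of colour j. -/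
def colourGraph {V K : Type} (c : Sym2 V → K) (j : K) : SimpleGraph V where
  Adj x y := x ≠ y ∧ c s(x, y) = j
  symm := ⟨fun x y h => ⟨h.1.symm, by rw [Sym2.eq_swap]; exact h.2⟩⟩
  loopless := ⟨fun _ h => h.1 rfl⟩

noncomputable def M (k m : ℕ) : ℕ :=
  sInf {N | ∀ n, N ≤ n → ∀ c : Sym2 (Fin n) → Fin k, ∃ j, HasPath (colourGraph c j) m}

theorem upper (k n : ℕ) (hn : 2 ^ k + 1 ≤ n) (c : Sym2 (Fin n) → Fin k) :
    ∃ j, HasPath (colourGraph c j) 3 := by
  classical
  by_contra h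
  push Not at h
  let d : Fin k → Fin n → ℕ ×ₗ Fin n := fun j v =>
    toLex (((colourGraph c j).neighborSet v).ncard, v)
  let s : Fin n → Fin k → Prop := fun v j => ∃ u, (colourGraph c j).Adj u v ∧ d j u < d j v
  have key : ∀ j u v, (colourGraph c j).Adj u v → d j u < d j v → ¬ s u j := by
    rintro j u v h1 h2 ⟨w, h3, h4⟩
    have hw : w ≠ v := fun e => lt_asymm h2 (e ▸ h4)
    have le : ∀ a b, d j a < d j b → ((colourGraph c j).neighborSet a).ncard ≤
        ((colourGraph c j).neighborSet b).ncard := fun a b e => by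
      have := Prod.Lex.toLex_lt_toLex.mp e
      simp only at this; omega
    refine h j ⟨fun i => if i = 0 then w else if i = 1 then u else v, ?_, ?_⟩
    · intro a ha b hb e
      have ha' : a < 3 := ha
      have hb' : b < 3 := hb
      have := h1.ne; have := h3.ne
      interval_cases a <;> interval_cases b <;> simp_all
    · intro i hi
      have : i < 2 := by omega
      interval_cases i
      · exact ⟨h3, le _ _ h4⟩
      · exact ⟨h1, le _ _ h2⟩
  have hinj : Function.Injective s := by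
    intro u v e
    by_contra huv
    have h1 : (colourGraph c (c s(u, v))).Adj u v := ⟨huv, rfl⟩
    rcases lt_trichotomy (d (c s(u, v)) u) (d (c s(u, v)) v) with h2 | h2 | h2
    · exact key _ u v h1 h2 (e ▸ ⟨u, h1, h2⟩)
    · exact huv (congrArg (fun x => (ofLex x).2) h2)
    · exact key _ v u h1.symm h2 (e ▸ ⟨v, h1.symm, h2⟩)
  have := Fintype.card_le_of_injective s hinj
  simp at this; omega

theorem lower (k n : ℕ) (h : H31.DegMono3.Feas (Fin k) n) : n < M k 3 := by
  classical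
  obtain ⟨V, _, c, s, h1, h2, h3⟩ := h
  by_contra hc
  let e : Fin n ≃ V := (Fintype.equivFinOfCardEq h1).symm
  let c' : Sym2 V → Fin k := Sym2.lift ⟨c, h2⟩
  obtain ⟨j, hj⟩ := Nat.sInf_mem (s := {N | ∀ n, N ≤ n → ∀ c : Sym2 (Fin n) → Fin k,
    ∃ j, HasPath (colourGraph c j) 3}) ⟨_, upper k⟩ n (not_lt.mp hc) (fun x => c' (x.map e))
  have : colourGraph (fun x => c' (x.map e)) j = (colourGraph c' j).comap e := by
    ext x y; simp [colourGraph]
  rw [this] at hj
  obtain ⟨p, _, hp⟩ := H31.DegMono.hp_comap e _ _ hj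
  have hd : ∀ v, ((colourGraph c' j).neighborSet v).ncard = H31.DegMono3.dg c j v := by
    intro v
    unfold H31.DegMono3.dg
    rw [← Set.ncard_coe_finset]
    congr 1; ext y; simp [colourGraph, c', eq_comm]
  obtain ⟨⟨a1, a2⟩, a3⟩ := hp 0 (by omega)
  obtain ⟨⟨b1, b2⟩, b3⟩ := hp 1 (by omega)
  rw [hd, hd] at a3 b3
  have a4 := h3 _ _ a1
  have b4 := h3 _ _ b1
  rw [show c (p 0) (p (0 + 1)) = j from a2] at a4
  rw [show c (p 1) (p (1 + 1)) = j from b2] at b4
  have : s j (p 1) := by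
    by_contra hs
    exact absurd (a4.2 (a4.1.mpr hs)) (by omega)
  exact absurd (b4.2 this) (by omega)

theorem result : Tendsto (fun k : ℕ => (M k 3 : ℝ) / 2 ^ k) atTop (𝓝 1) := by
  rw [tendsto_order]
  constructor
  · intro a ha
    obtain ⟨b, hb8, hb⟩ : ∃ b : ℕ, 9 ≤ b ∧ 3 / (1 - a) < 2 ^ b := by
      obtain ⟨b, hb⟩ := pow_unbounded_of_one_lt (3 / (1 - a)) (show (1 : ℝ) < 2 by norm_num)
      exact ⟨b + 9, by omega, hb.trans_le (pow_le_pow_right₀ (by norm_num) (by omega))⟩
    have h36 : 36 * b ≤ 2 ^ b := by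
      clear hb
      induction b, hb8 using Nat.le_induction with
      | base => norm_num
      | succ b h ih => rw [pow_succ]; omega
    refine eventually_atTop.mpr ⟨3 * b, fun k hk => ?_⟩
    obtain ⟨t, rfl⟩ := Nat.exists_eq_add_of_le hk
    obtain ⟨x, _, _, h1, _, _, h2, _⟩ := (H31.DegMono3.three_base h36 (by omega)).pow t
    have h3 := h1.trans (lower _ _ h2).le
    obtain ⟨r, hr⟩ : ∃ r, 2 ^ b = r + 3 := ⟨2 ^ b - 3, by omega⟩
    have h4 : r * (r + 3) ^ 2 ≤ (2 ^ b - 1) ^ 3 - 2 := by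
      rw [hr, show r + 3 - 1 = r + 2 from rfl]
      exact Nat.le_sub_of_add_le (by nlinarith)
    have h5 : (r : ℝ) * (r + 3) ^ 2 * 2 ^ t ≤ M (3 * b + t) 3 := by
      exact_mod_cast (Nat.mul_le_mul_right _ h4).trans h3
    have hr' : (2 : ℝ) ^ b = r + 3 := by exact_mod_cast hr
    rw [lt_div_iff₀ (by positivity), pow_add, pow_mul', hr']
    rw [hr', div_lt_iff₀ (by linarith)] at hb
    refine lt_of_lt_of_le ?_ h5
    have : (0 : ℝ) < (r + 3) ^ 2 * 2 ^ t := by positivity
    nlinarith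
  · intro a ha
    have := (tendsto_order.mp (tendsto_pow_atTop_nhds_zero_of_lt_one
      (show (0 : ℝ) ≤ 1 / 2 by norm_num) (by norm_num))).2 (a - 1) (by linarith)
    refine this.mono fun k hk => ?_
    have h0 : M k 3 ≤ 2 ^ k + 1 := Nat.sInf_le (upper k)
    have h1 : (M k 3 : ℝ) ≤ 2 ^ k + 1 := by exact_mod_cast h0
    rw [div_lt_iff₀ (by positivity)]
    rw [one_div, inv_pow, inv_lt_iff_one_lt_mul₀ (by positivity)] at hk
    linarith

end Pool.Agent.Results.MP_7de56e_co.Limit
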